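import Pool.Agent.H7.IA.Stmts

/-!
Row AUG, part 1: missing pairs, avoiding a small set, the alternating trails.
-/

set_option autoImplicit false

open Finset

namespace Pool.IA7

open Pool.Agent.H23.KT Pool.Agent.H46.KW Pool.KQ Pool.GT7 Pool.GU7 Pool.HZ7

namespace Aug

section

variable {V : Type} [DecidableEq V] (G : SimpleGraph V) {n : ℕ} (Q : Fin n → Finset V)

/-- A missing pair. -/
def HA (u v : V) : Prop := ∃ i j, i ≠ j ∧ u ∈ Q i ∧ v ∈ Q j ∧ ¬ G.Adj u v

open Classical in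
/-- The vertices which form a missing pair with `u`. -/
noncomputable def N (u : V) : Finset V := (un Q).filter (fun v => HA G Q u v)

open Classical in
/-- The ordered missing pairs. -/
noncomputable def HP : Finset (V × V) := (un Q ×ˢ un Q).filter (fun x => HA G Q x.1 x.2)

/-- The indicator function. -/
def I (w u : V) : ℕ := if u = w then 1 else 0

/-- The conclusion. -/
def Concl (δ : V → ℕ) : Prop :=
  ∃ EA EB : Finset (Sym2 V), (EA : Set (Sym2 V)) ⊆ mis G Q ∧ (EB : Set (Sym2 V)) ⊆ cro G Q ∧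
    EA.card = EB.card + 1 ∧ EA.card ≤ 5 ∧ ∀ u ∈ un Q, dgE EA u ≤ dgE EB u + δ u

variable {G Q}

theorem mem_un' {v : V} : v ∈ un Q ↔ ∃ i, v ∈ Q i := by simp [un]

omit [DecidableEq V] in
theorem HA.symm {u v : V} (h : HA G Q u v) : HA G Q v u := by
  obtain ⟨i, j, hij, hu, hv, hG⟩ := h
  exact ⟨j, i, hij.symm, hv, hu, fun h => hG h.symm⟩

theorem HA.left {u v : V} (h : HA G Q u v) : u ∈ un Q := by
  obtain ⟨i, j, -, hu, -⟩ := h
  exact mem_un'.2 ⟨i, hu⟩

theorem HA.right {u v : V} (h : HA G Q u v) : v ∈ un Q := h.symm.left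

omit [DecidableEq V] in
theorem part_eq (hP : Par G Q) {u : V} {i j : Fin n} (hi : u ∈ Q i) (hj : u ∈ Q j) : i = j := by
  by_contra h
  exact Finset.disjoint_left.1 (hP.dis i j h) hi hj

omit [DecidableEq V] in
theorem HA.part (hP : Par G Q) {u v : V} (h : HA G Q u v) {k : Fin n} (hu : u ∈ Q k) : v ∉ Q k := by
  obtain ⟨i, j, hij, hu', hv', -⟩ := h
  intro hv
  exact hij ((part_eq hP hu' hu).trans (part_eq hP hv hv'))

theorem HA.ne (hP : Par G Q) {u v : V} (h : HA G Q u v) : u ≠ v := by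
  rintro rfl
  obtain ⟨k, hk⟩ := mem_un'.1 h.left
  exact h.part hP hk hk

theorem mem_N {u v : V} : v ∈ N G Q u ↔ HA G Q u v := by
  classical
  unfold N
  rw [mem_filter]
  exact ⟨fun h => h.2, fun h => ⟨h.right, h⟩⟩

theorem mem_HP {x : V × V} : x ∈ HP G Q ↔ HA G Q x.1 x.2 := by
  classical
  unfold HP
  rw [mem_filter, mem_product]
  exact ⟨fun h => h.2, fun h => ⟨⟨h.left, h.right⟩, h⟩⟩

theorem card_N (hP : Par G Q) {u : V} {j : Fin n} (hu : u ∈ Q j) :
    (N G Q u).card = ∑ k ∈ univ.erase j, (non G (Q k) u).card := by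
  classical
  have h1 : N G Q u = (univ.erase j).biUnion (fun k => non G (Q k) u) := by
    ext v
    rw [mem_N, mem_biUnion]
    constructor
    · rintro ⟨i, k, hik, hi, hk, hG⟩
      have : i = j := part_eq hP hi hu
      subst this
      exact ⟨k, mem_erase.2 ⟨hik.symm, mem_univ _⟩, by simp [non, hk, hG]⟩
    · rintro ⟨k, hk, hv⟩
      simp only [non, mem_filter] at hv
      exact ⟨j, k, (mem_erase.1 hk).1.symm, hu, hv.1, hv.2⟩
  rw [h1, card_biUnion]
  intro i _ k _ hik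
  refine Finset.disjoint_left.2 fun x hx hy => ?_
  simp only [non, mem_filter] at hx hy
  exact hik (part_eq hP hx.1 hy.1)

theorem card_touch (K' : ℕ) (hN : ∀ u, (N G Q u).card ≤ K') (F : Finset V) (P : Finset (V × V))
    (hPs : ∀ x ∈ P, HA G Q x.1 x.2) (hc : 2 * (F.card * K') < P.card) :
    ∃ x ∈ P, x.1 ∉ F ∧ x.2 ∉ F := by
  classical
  by_contra hcon
  push Not at hcon
  have hsub : P ⊆ (F.biUnion fun u => (N G Q u).image fun v => (u, v)) ∪
      (F.biUnion fun u => (N G Q u).image fun v => (v, u)) := by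
    intro x hx
    rw [mem_union]
    by_cases h1 : x.1 ∈ F
    · left
      exact mem_biUnion.2 ⟨x.1, h1, mem_image.2 ⟨x.2, mem_N.2 (hPs x hx), rfl⟩⟩
    · right
      exact mem_biUnion.2 ⟨x.2, hcon x hx h1, mem_image.2 ⟨x.1, mem_N.2 (hPs x hx).symm, rfl⟩⟩
  have h1 : (F.biUnion fun u => (N G Q u).image fun v => (u, v)).card ≤ F.card * K' :=
    card_biUnion_le_card_mul _ _ _ fun u _ => card_image_le.trans (hN u)
  have h2 : (F.biUnion fun u => (N G Q u).image fun v => (v, u)).card ≤ F.card * K' :=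
    card_biUnion_le_card_mul _ _ _ fun u _ => card_image_le.trans (hN u)
  have h3 := (card_le_card hsub).trans (card_union_le _ _)
  omega

/-- Choice of a missing pair which is far from a small set. -/
theorem avoid (K' : ℕ) (hN : ∀ u, (N G Q u).card ≤ K') (F : Finset V) (hF : F.card ≤ 8)
    (P : Finset (V × V)) (hPs : ∀ x ∈ P, HA G Q x.1 x.2) (hc : 16 * ((1 + K') * K') < P.card) :
    ∃ x ∈ P, (∀ v ∈ F, v ≠ x.1 ∧ v ≠ x.2 ∧ ¬ HA G Q v x.1 ∧ ¬ HA G Q v x.2) := by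
  classical
  have hF2 : (F ∪ F.biUnion (N G Q)).card ≤ 8 * (1 + K') := by
    have h1 : (F.biUnion (N G Q)).card ≤ F.card * K' :=
      card_biUnion_le_card_mul _ _ _ fun u _ => hN u
    have h2 := card_union_le F (F.biUnion (N G Q))
    have h3 : F.card * K' ≤ 8 * K' := Nat.mul_le_mul_right _ hF
    omega
  have hc' : 2 * ((F ∪ F.biUnion (N G Q)).card * K') < P.card := by
    refine lt_of_le_of_lt ?_ hc
    have := Nat.mul_le_mul_right K' hF2
    nlinarith
  obtain ⟨x, hx, h1, h2⟩ := card_touch K' hN _ P hPs hc'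
  refine ⟨x, hx, fun v hv => ⟨?_, ?_, ?_, ?_⟩⟩
  · rintro rfl
    exact h1 (mem_union_left _ hv)
  · rintro rfl
    exact h2 (mem_union_left _ hv)
  · intro h
    exact h1 (mem_union_right _ (mem_biUnion.2 ⟨v, hv, mem_N.2 h⟩))
  · intro h
    exact h2 (mem_union_right _ (mem_biUnion.2 ⟨v, hv, mem_N.2 h⟩))

omit [DecidableEq V] in
theorem mis_mem {u v : V} (h : HA G Q u v) : s(u, v) ∈ mis G Q := by
  obtain ⟨i, j, hij, hu, hv, hG⟩ := h
  exact ⟨i, j, u, v, hij, hu, hv, hG, rfl⟩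

theorem cro_mem {u v : V} {i : Fin n} (hu : u ∈ Q i) (hv : v ∈ un Q) (hv' : v ∉ Q i)
    (h : ¬ HA G Q u v) : s(u, v) ∈ cro G Q := by
  obtain ⟨j, hj⟩ := mem_un'.1 hv
  have hij : i ≠ j := by
    rintro rfl
    exact hv' hj
  refine ⟨i, j, u, v, hij, hu, hj, ?_, rfl⟩
  by_contra hG
  exact h ⟨i, j, hij, hu, hj, hG⟩

omit [DecidableEq V] in
theorem dgE_empty (u : V) : dgE (∅ : Finset (Sym2 V)) u = 0 := by simp [dgE]

theorem dgE_le (E : Finset (Sym2 V)) (x y u : V) :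
    dgE (insert s(x, y) E) u ≤ I x u + I y u + dgE E u := by
  unfold dgE I
  rw [filter_insert]
  by_cases hx : u = x
  · subst hx
    simp only [Sym2.mem_iff, true_or, if_true]
    refine (card_insert_le _ _).trans ?_
    omega
  · by_cases hy : u = y
    · subst hy
      simp only [Sym2.mem_iff, or_true, if_true]
      refine (card_insert_le _ _).trans ?_
      omega
    · simp [Sym2.mem_iff, hx, hy]

theorem dgE_eq (E : Finset (Sym2 V)) (x y u : V) (hxy : x ≠ y) (hE : s(x, y) ∉ E) :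
    dgE (insert s(x, y) E) u = I x u + I y u + dgE E u := by
  unfold dgE I
  rw [filter_insert]
  by_cases hx : u = x
  · subst hx
    simp only [Sym2.mem_iff, true_or, if_true]
    rw [card_insert_of_notMem, if_neg hxy]
    · omega
    · intro h
      simp only [mem_filter] at h
      exact hE h.1
  · by_cases hy : u = y
    · subst hy
      simp only [Sym2.mem_iff, or_true, if_true]
      rw [card_insert_of_notMem, if_neg hx]
      · omega
      · intro h
        simp only [mem_filter] at h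
        exact hE h.1
    · simp [Sym2.mem_iff, hx, hy]

omit [DecidableEq V] in
theorem ne1 {a b c d : V} (h1 : a ≠ c) (h2 : a ≠ d) : s(a, b) ≠ s(c, d) := by
  intro h
  rcases Sym2.eq_iff.1 h with h | h
  · exact h1 h.1
  · exact h2 h.1

omit [DecidableEq V] in
theorem ne2 {a b c d : V} (h1 : b ≠ c) (h2 : b ≠ d) : s(a, b) ≠ s(c, d) := by
  intro h
  rcases Sym2.eq_iff.1 h with h | h
  · exact h2 h.2
  · exact h1 h.2

/-- Trail of length 1. -/
theorem t1 (δ : V → ℕ) (w w' : V) (hδ : ∀ u, I w u + I w' u ≤ δ u) (h : HA G Q w w') :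
    Concl G Q δ := by
  refine ⟨{s(w, w')}, ∅, ?_, by simp, by simp, by simp, ?_⟩
  · simpa using mis_mem h
  · intro u _
    have h1 := dgE_le (∅ : Finset (Sym2 V)) w w' u
    rw [dgE_empty] at h1 ⊢
    have h2 := hδ u
    have h3 : dgE ({s(w, w')} : Finset (Sym2 V)) u = dgE (insert s(w, w') ∅) u := rfl
    omega

/-- Trail of length 5. -/
theorem t5 (hP : Par G Q) (δ : V → ℕ) (K' : ℕ) (hN : ∀ u, (N G Q u).card ≤ K')
    (w w' y y' : V) (k k' : Fin n) (hδ : ∀ u, I w u + I w' u ≤ δ u) (hww : ¬ HA G Q w w')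
    (hy : HA G Q w y) (hy' : HA G Q w' y') (hk : y ∈ Q k) (hk' : y' ∈ Q k')
    (hne : w = w' → y ≠ y')
    (P : Finset (V × V)) (hPs : ∀ x ∈ P, HA G Q x.1 x.2 ∧ x.1 ∉ Q k ∧ x.2 ∉ Q k')
    (hc : 16 * ((1 + K') * K') < P.card) : Concl G Q δ := by
  classical
  obtain ⟨⟨z₁, z₂⟩, hz, hav⟩ := avoid K' hN {w, w', y, y'} (by
    refine (card_le_four).trans ?_
    norm_num) P (fun x hx => (hPs x hx).1) hc
  obtain ⟨hz12, hz1, hz2⟩ := hPs _ hz
  simp only at hz12 hz1 hz2 hav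
  obtain ⟨aw1, aw2, -, -⟩ := hav w (by simp)
  obtain ⟨aw'1, aw'2, -, -⟩ := hav w' (by simp)
  obtain ⟨ay1, ay2, ay3, -⟩ := hav y (by simp)
  obtain ⟨ay'1, ay'2, -, ay'4⟩ := hav y' (by simp)
  have hwy : w ≠ y := hy.ne hP
  have hw'y' : w' ≠ y' := hy'.ne hP
  have hzz : z₁ ≠ z₂ := hz12.ne hP
  have hwy' : w ≠ y' := by
    rintro rfl
    exact hww hy'.symm
  have hw'y : w' ≠ y := by
    rintro rfl
    exact hww hy
  -- the pairs are different
  have e1 : s(w, y) ≠ s(w', y') := by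
    intro h
    rcases Sym2.eq_iff.1 h with h | h
    · exact hne h.1 h.2
    · exact hwy' h.1
  have e2 : s(z₁, z₂) ≠ s(w, y) := ne1 (Ne.symm aw1) (Ne.symm ay1)
  have e3 : s(z₁, z₂) ≠ s(w', y') := ne1 (Ne.symm aw'1) (Ne.symm ay'1)
  have e4 : s(y, z₁) ≠ s(y', z₂) := ne2 (Ne.symm ay'1) hzz
  have n2 : s(w, y) ∉ ({s(w', y')} : Finset (Sym2 V)) := by simpa using e1
  have n3 : s(z₁, z₂) ∉ ({s(w, y), s(w', y')} : Finset (Sym2 V)) := by
    rw [mem_insert, mem_singleton]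
    rintro (h | h)
    · exact e2 h
    · exact e3 h
  have n4 : s(y, z₁) ∉ ({s(y', z₂)} : Finset (Sym2 V)) := by simpa using e4
  refine ⟨{s(z₁, z₂), s(w, y), s(w', y')}, {s(y, z₁), s(y', z₂)}, ?_, ?_, ?_, ?_, ?_⟩
  · intro x hx
    simp only [coe_insert, coe_singleton, Set.mem_insert_iff, Set.mem_singleton_iff] at hx
    rcases hx with rfl | rfl | rfl
    · exact mis_mem hz12
    · exact mis_mem hy
    · exact mis_mem hy'
  · intro x hx
    simp only [coe_insert, coe_singleton, Set.mem_insert_iff, Set.mem_singleton_iff] at hx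
    rcases hx with rfl | rfl
    · exact cro_mem hk hz12.left hz1 ay3
    · exact cro_mem hk' hz12.right hz2 ay'4
  · rw [card_insert_of_notMem n3, card_insert_of_notMem n2, card_insert_of_notMem n4]
    simp
  · rw [card_insert_of_notMem n3, card_insert_of_notMem n2]
    simp
  · intro u _
    have a1 := dgE_le {s(w, y), s(w', y')} z₁ z₂ u
    have a2 := dgE_le {s(w', y')} w y u
    have a3 := dgE_le ∅ w' y' u
    have b1 := dgE_eq {s(y', z₂)} y z₁ u ay1 n4
    have b2 := dgE_eq ∅ y' z₂ u ay'2 (by simp)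
    rw [dgE_empty] at a3 b2
    have a4 : dgE ({s(w', y')} : Finset (Sym2 V)) u = dgE (insert s(w', y') ∅) u := rfl
    have b4 : dgE ({s(y', z₂)} : Finset (Sym2 V)) u = dgE (insert s(y', z₂) ∅) u := rfl
    have h2 := hδ u
    omega

/-- Trail of length 9. -/
theorem t9 (hP : Par G Q) (δ : V → ℕ) (K' : ℕ) (hN : ∀ u, (N G Q u).card ≤ K')
    (w w' y y' z₁ z₂ : V) (k : Fin n) (hδ : ∀ u, I w u + I w' u ≤ δ u) (hww : ¬ HA G Q w w')
    (hy : HA G Q w y) (hy' : HA G Q w' y') (hk : y ∈ Q k) (hk' : y' ∈ Q k)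
    (hne : w = w' → y ≠ y') (hz : HA G Q z₁ z₂) (hz1 : z₁ ∉ Q k) (hz2 : z₂ ∉ Q k)
    (hz1w : z₁ ≠ w) (hz1w' : z₁ ≠ w')
    (P : Finset (V × V)) (hPs : ∀ x ∈ P, HA G Q x.1 x.2 ∧ x.2 ∈ Q k)
    (hc : 16 * ((1 + K') * K') < P.card) : Concl G Q δ := by
  classical
  obtain ⟨⟨g, g'⟩, hg, hav⟩ := avoid K' hN {w, w', y, y', z₁, z₂} (by
    refine (card_le_six).trans ?_
    norm_num) P (fun x hx => (hPs x hx).1) hc
  obtain ⟨hgg, hgk⟩ := hPs _ hg
  simp only at hgg hgk hav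
  have hgk' : g ∉ Q k := hgg.symm.part hP hgk
  obtain ⟨⟨f, f'⟩, hf, hav2⟩ := avoid K' hN {w, w', y, y', z₁, z₂, g, g'} (by
    refine (card_insert_le _ _).trans ?_
    refine (Nat.succ_le_succ (card_insert_le _ _)).trans ?_
    have := card_le_six (a := y) (b := y') (c := z₁) (d := z₂) (e := g) (f := g')
    omega) P (fun x hx => (hPs x hx).1) hc
  obtain ⟨hff, hfk⟩ := hPs _ hf
  simp only at hff hfk hav2
  have hfk' : f ∉ Q k := hff.symm.part hP hfk
  obtain ⟨gw1, gw2, -, -⟩ := hav w (by simp)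
  obtain ⟨gw'1, gw'2, -, -⟩ := hav w' (by simp)
  obtain ⟨gy1, gy2, gy3, -⟩ := hav y (by simp)
  obtain ⟨gy'1, gy'2, -, -⟩ := hav y' (by simp)
  obtain ⟨gz1, gz2, -, gz4⟩ := hav z₁ (by simp)
  obtain ⟨gx1, gx2, -, -⟩ := hav z₂ (by simp)
  obtain ⟨fw1, fw2, -, -⟩ := hav2 w (by simp)
  obtain ⟨fw'1, fw'2, -, -⟩ := hav2 w' (by simp)
  obtain ⟨fy1, fy2, -, -⟩ := hav2 y (by simp)
  obtain ⟨fy'1, fy'2, fy'3, -⟩ := hav2 y' (by simp)
  obtain ⟨fz1, fz2, -, -⟩ := hav2 z₁ (by simp)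
  obtain ⟨fx1, fx2, -, fx4⟩ := hav2 z₂ (by simp)
  obtain ⟨fg1, fg2, -, -⟩ := hav2 g (by simp)
  obtain ⟨fh1, fh2, -, -⟩ := hav2 g' (by simp)
  have hwy : w ≠ y := hy.ne hP
  have hw'y' : w' ≠ y' := hy'.ne hP
  have hzz : z₁ ≠ z₂ := hz.ne hP
  have hggn : g ≠ g' := hgg.ne hP
  have hffn : f ≠ f' := hff.ne hP
  have hwy' : w ≠ y' := by
    rintro rfl
    exact hww hy'.symm
  have hz1y : z₁ ≠ y := fun h => hz1 (h ▸ hk)
  have hz1y' : z₁ ≠ y' := fun h => hz1 (h ▸ hk')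
  have hz2y : z₂ ≠ y := fun h => hz2 (h ▸ hk)
  have hz2y' : z₂ ≠ y' := fun h => hz2 (h ▸ hk')
  -- the pairs are different
  have n5 : s(w, y) ∉ ({s(w', y')} : Finset (Sym2 V)) := by
    rw [mem_singleton]
    intro h
    rcases Sym2.eq_iff.1 h with h | h
    · exact hne h.1 h.2
    · exact hwy' h.1
  have n4 : s(z₁, z₂) ∉ ({s(w, y), s(w', y')} : Finset (Sym2 V)) := by
    rw [mem_insert, mem_singleton]
    rintro (h | h)
    · exact ne1 hz1w hz1y h
    · exact ne1 hz1w' hz1y' h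
  have n3 : s(g, g') ∉ ({s(z₁, z₂), s(w, y), s(w', y')} : Finset (Sym2 V)) := by
    rw [mem_insert, mem_insert, mem_singleton]
    rintro (h | h | h)
    · exact ne1 (Ne.symm gz1) (Ne.symm gx1) h
    · exact ne1 (Ne.symm gw1) (Ne.symm gy1) h
    · exact ne1 (Ne.symm gw'1) (Ne.symm gy'1) h
  have n2 : s(f, f') ∉ ({s(g, g'), s(z₁, z₂), s(w, y), s(w', y')} : Finset (Sym2 V)) := by
    rw [mem_insert, mem_insert, mem_insert, mem_singleton]
    rintro (h | h | h | h)
    · exact ne1 (Ne.symm fg1) (Ne.symm fh1) h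
    · exact ne1 (Ne.symm fz1) (Ne.symm fx1) h
    · exact ne1 (Ne.symm fw1) (Ne.symm fy1) h
    · exact ne1 (Ne.symm fw'1) (Ne.symm fy'1) h
  have m3 : s(g', z₁) ∉ ({s(f', z₂)} : Finset (Sym2 V)) := by
    rw [mem_singleton]
    exact ne1 fh2 (Ne.symm gx2)
  have m2 : s(y', f) ∉ ({s(g', z₁), s(f', z₂)} : Finset (Sym2 V)) := by
    rw [mem_insert, mem_singleton]
    rintro (h | h)
    · exact ne2 (Ne.symm fh1) (Ne.symm fz1) h
    · exact ne2 hffn (Ne.symm fx1) h
  have m1 : s(y, g) ∉ ({s(y', f), s(g', z₁), s(f', z₂)} : Finset (Sym2 V)) := by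
    rw [mem_insert, mem_insert, mem_singleton]
    rintro (h | h | h)
    · exact ne2 (Ne.symm gy'1) fg1 h
    · exact ne2 hggn (Ne.symm gz1) h
    · exact ne2 fg2 (Ne.symm gx1) h
  refine ⟨{s(f, f'), s(g, g'), s(z₁, z₂), s(w, y), s(w', y')},
    {s(y, g), s(y', f), s(g', z₁), s(f', z₂)}, ?_, ?_, ?_, ?_, ?_⟩
  · intro x hx
    simp only [coe_insert, coe_singleton, Set.mem_insert_iff, Set.mem_singleton_iff] at hx
    rcases hx with rfl | rfl | rfl | rfl | rfl
    · exact mis_mem hff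
    · exact mis_mem hgg
    · exact mis_mem hz
    · exact mis_mem hy
    · exact mis_mem hy'
  · intro x hx
    simp only [coe_insert, coe_singleton, Set.mem_insert_iff, Set.mem_singleton_iff] at hx
    rcases hx with rfl | rfl | rfl | rfl
    · exact cro_mem hk hgg.left hgk' gy3
    · exact cro_mem hk' hff.left hfk' fy'3
    · exact cro_mem hgk hz.left hz1 (fun h => gz4 h.symm)
    · exact cro_mem hfk hz.right hz2 (fun h => fx4 h.symm)
  · rw [card_insert_of_notMem n2, card_insert_of_notMem n3, card_insert_of_notMem n4,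
      card_insert_of_notMem n5, card_insert_of_notMem m1, card_insert_of_notMem m2,
      card_insert_of_notMem m3]
    simp
  · rw [card_insert_of_notMem n2, card_insert_of_notMem n3, card_insert_of_notMem n4,
      card_insert_of_notMem n5]
    simp
  · intro u _
    have a0 := dgE_le {s(g, g'), s(z₁, z₂), s(w, y), s(w', y')} f f' u
    have a1 := dgE_le {s(z₁, z₂), s(w, y), s(w', y')} g g' u
    have a2 := dgE_le {s(w, y), s(w', y')} z₁ z₂ u
    have a3 := dgE_le {s(w', y')} w y u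
    have a4 := dgE_le ∅ w' y' u
    have b1 := dgE_eq _ y g u gy1 m1
    have b2 := dgE_eq _ y' f u fy'1 m2
    have b3 := dgE_eq _ g' z₁ u (Ne.symm gz2) m3
    have b4 := dgE_eq ∅ f' z₂ u (Ne.symm fx2) (by simp)
    rw [dgE_empty] at a4 b4
    have a5 : dgE ({s(w', y')} : Finset (Sym2 V)) u = dgE (insert s(w', y') ∅) u := rfl
    have b5 : dgE ({s(f', z₂)} : Finset (Sym2 V)) u = dgE (insert s(f', z₂) ∅) u := rfl
    have h2 := hδ u
    omega

end

end Aug

end Pool.IA7
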